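import Pool.Agent.helper69.DH.SpecR2

set_option autoImplicit false

open Filter Topology MeasureTheory
open scoped commutatorElement

namespace Pool.Agent.helper90.DH

theorem rBPH_fl (n : ℤ) : |(n : ℝ) / 2 ^ 30 - ((n / (2 ^ 30 : ℤ) : ℤ) : ℝ) - 1 / 2| ≤ 1 / 2 := by
  have h1 : n % (2 ^ 30 : ℤ) + 2 ^ 30 * (n / (2 ^ 30 : ℤ)) = n := Int.emod_add_mul_ediv n (2 ^ 30)
  have h2 : 0 ≤ n % (2 ^ 30 : ℤ) := Int.emod_nonneg _ (by norm_num)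
  have h3 : n % (2 ^ 30 : ℤ) < 2 ^ 30 := Int.emod_lt_of_pos _ (by norm_num)
  have h1' : ((n % (2 ^ 30 : ℤ) : ℤ) : ℝ) + 2 ^ 30 * ((n / (2 ^ 30 : ℤ) : ℤ) : ℝ) = n := by exact_mod_cast h1
  have h2' : (0 : ℝ) ≤ ((n % (2 ^ 30 : ℤ) : ℤ) : ℝ) := by exact_mod_cast h2
  have h3' : ((n % (2 ^ 30 : ℤ) : ℤ) : ℝ) < 2 ^ 30 := by exact_mod_cast h3
  have e : (n : ℝ) / 2 ^ 30 - ((n / (2 ^ 30 : ℤ) : ℤ) : ℝ) - 1 / 2 = ((n % (2 ^ 30 : ℤ) : ℤ) : ℝ) / 2 ^ 30 - 1 / 2 := by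
    rw [← h1']; ring
  rw [e, abs_le]
  constructor
  · have : (0 : ℝ) ≤ ((n % (2 ^ 30 : ℤ) : ℤ) : ℝ) / 2 ^ 30 := by positivity
    linarith
  · have : ((n % (2 ^ 30 : ℤ) : ℤ) : ℝ) / 2 ^ 30 ≤ 1 := by
      rw [div_le_one (by positivity)]; exact h3'.le
    linarith

theorem rBPH_sum (S : Finset ℤ) (x : ℝ) (g : ℤ → ℝ) (B : ℝ) (hB : 0 ≤ B) (hg : ∀ k ∈ S, |g k| ≤ B)
    (h0 : ∀ k ∈ S, 2 + 1 / 2 ^ 20 ≤ |x - (k : ℝ) - 1 / 2| → g k = 0) : |∑ k ∈ S, g k| ≤ 5 * B := by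
  classical
  have e1 : ∑ k ∈ S, g k = ∑ k ∈ S.filter (fun k : ℤ => |x - (k : ℝ) - 1 / 2| < 2 + 1 / 2 ^ 20), g k := by
    symm
    refine Finset.sum_filter_of_ne fun k hk hne => ?_
    by_contra hc
    exact hne (h0 k hk (not_lt.1 hc))
  rw [e1]
  set m : ℤ := ⌊x - 1 / 2 - (2 + 1 / 2 ^ 20)⌋ with hm
  have hsub : S.filter (fun k : ℤ => |x - (k : ℝ) - 1 / 2| < 2 + 1 / 2 ^ 20) ⊆ Finset.Icc (m + 1) (m + 5) := by
    intro k hk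
    have h1 := (Finset.mem_filter.1 hk).2
    rw [abs_lt] at h1
    have hf1 := Int.floor_le (x - 1 / 2 - (2 + 1 / 2 ^ 20))
    have hf2 := Int.lt_floor_add_one (x - 1 / 2 - (2 + 1 / 2 ^ 20))
    rw [← hm] at hf1 hf2
    rw [Finset.mem_Icc]
    constructor
    · have : (m : ℝ) < k := by linarith [h1.2]
      have : m < k := by exact_mod_cast this
      omega
    · have : (k : ℝ) < ((m + 6 : ℤ) : ℝ) := by push_cast; norm_num at h1 hf2 ⊢; linarith [h1.1]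
      have : k < m + 6 := by exact_mod_cast this
      omega
  calc |∑ k ∈ S.filter (fun k : ℤ => |x - (k : ℝ) - 1 / 2| < 2 + 1 / 2 ^ 20), g k|
      ≤ ∑ k ∈ S.filter (fun k : ℤ => |x - (k : ℝ) - 1 / 2| < 2 + 1 / 2 ^ 20), |g k| := Finset.abs_sum_le_sum_abs _ _
    _ ≤ ∑ k ∈ S.filter (fun k : ℤ => |x - (k : ℝ) - 1 / 2| < 2 + 1 / 2 ^ 20), B :=
        Finset.sum_le_sum fun k hk => hg k (Finset.mem_filter.1 hk).1
    _ = ((S.filter (fun k : ℤ => |x - (k : ℝ) - 1 / 2| < 2 + 1 / 2 ^ 20)).card : ℝ) * B := by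
        rw [Finset.sum_const, nsmul_eq_mul]
    _ ≤ 5 * B := by
        refine mul_le_mul_of_nonneg_right ?_ hB
        have := Finset.card_le_card hsub
        rw [Int.card_Icc] at this
        have h5 : (m + 5 + 1 - (m + 1)).toNat = 5 := by omega
        rw [h5] at this
        exact_mod_cast this

theorem rBPH (hBMP : rBMP_stmt) : rBPH_stmt := by
  intro A t z
  set S : Finset ℤ := A.image (fun n : ℤ => n / (2 ^ 30 : ℤ)) with hS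
  have hph : ∀ z : ℝ, rph A t z = ∑ k ∈ S, rbp (2 ^ t * z / 2 ^ 30 - (k : ℝ)) := fun _ => rfl
  refine ⟨?_, ?_, ?_, ?_⟩
  · rw [hph]; exact Finset.sum_nonneg fun k _ => (hBMP _).1
  · rintro ⟨n, hn, hz⟩
    rw [hph]
    have hk : n / (2 ^ 30 : ℤ) ∈ S := Finset.mem_image.2 ⟨n, hn, rfl⟩
    have h1 : 1 ≤ rbp (2 ^ t * z / 2 ^ 30 - ((n / (2 ^ 30 : ℤ) : ℤ) : ℝ)) := by
      refine (hBMP _).2.1 ?_
      have h2 := rBPH_fl n
      rw [abs_le] at h2 hz ⊢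
      have e : 2 ^ t * z / 2 ^ 30 = (2 ^ t * z - n) / 2 ^ 30 + (n : ℝ) / 2 ^ 30 := by ring
      have e1 : (2 ^ t * z - n) / 2 ^ 30 ≤ 4 / 2 ^ 30 := by gcongr; exact hz.2
      have e2 : -4 / 2 ^ 30 ≤ (2 ^ t * z - (n : ℝ)) / 2 ^ 30 := by gcongr; exact hz.1
      have e3 : (4 : ℝ) / 2 ^ 30 ≤ 1 / 2 ^ 20 := by norm_num
      rw [e]
      constructor
      · linarith [h2.1, (by rw [neg_div] at e2; exact e2 : -(4 / 2 ^ 30 : ℝ) ≤ (2 ^ t * z - (n : ℝ)) / 2 ^ 30)]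
      · linarith [h2.2]
    exact h1.trans (Finset.single_le_sum (f := fun k : ℤ => rbp (2 ^ t * z / 2 ^ 30 - (k : ℝ))) (fun k _ => (hBMP _).1) hk)
  · intro hz h hh
    rw [hph]
    refine Finset.sum_eq_zero fun k hk => ?_
    obtain ⟨n, hn, rfl⟩ := Finset.mem_image.1 hk
    refine (hBMP _).2.2.1 ?_
    have h1 := hz n hn
    have h2 := rBPH_fl n
    have e : 2 ^ t * (z + h) / 2 ^ 30 - ((n / (2 ^ 30 : ℤ) : ℤ) : ℝ) - 1 / 2 =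
        (2 ^ t * z - n) / 2 ^ 30 - (-(2 ^ t * h / 2 ^ 30) - ((n : ℝ) / 2 ^ 30 - ((n / (2 ^ 30 : ℤ) : ℤ) : ℝ) - 1 / 2)) := by ring
    rw [e]
    have h3 : (3 * 2 ^ 30 - 8) / 2 ^ 30 ≤ |(2 ^ t * z - (n : ℝ)) / 2 ^ 30| := by
      rw [abs_div, abs_of_pos (show (0 : ℝ) < 2 ^ 30 by positivity)]
      gcongr
    have h4 : |(-(2 ^ t * h / 2 ^ 30) - ((n : ℝ) / 2 ^ 30 - ((n / (2 ^ 30 : ℤ) : ℤ) : ℝ) - 1 / 2))| ≤ 2 / 2 ^ 30 + 1 / 2 := by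
      refine (abs_sub _ _).trans (add_le_add ?_ h2)
      rw [abs_neg, abs_div, abs_of_pos (show (0 : ℝ) < 2 ^ 30 by positivity)]
      gcongr
    have h5 := abs_sub_abs_le_abs_sub ((2 ^ t * z - (n : ℝ)) / 2 ^ 30)
      (-(2 ^ t * h / 2 ^ 30) - ((n : ℝ) / 2 ^ 30 - ((n / (2 ^ 30 : ℤ) : ℤ) : ℝ) - 1 / 2))
    norm_num at h3 h4 h5 ⊢
    linarith
  · have hch : ∀ k : ℤ, ∃ lam : ℝ, |lam| ≤ 8 / 5 ∧ (2 ≤ |2 ^ t * z / 2 ^ 30 - (k : ℝ) - 1 / 2| → lam = 0) ∧ ∀ h : ℝ, |h| ≤ 1 / 100 →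
      |rbp (2 ^ t * z / 2 ^ 30 - (k : ℝ) + h) - rbp (2 ^ t * z / 2 ^ 30 - (k : ℝ)) - lam * h| ≤ 4 * h ^ 2 ∧
      |rbp (2 ^ t * z / 2 ^ 30 - (k : ℝ) + h) - rbp (2 ^ t * z / 2 ^ 30 - (k : ℝ))| ≤ 2 * |h| := fun k => (hBMP _).2.2.2
    choose lam hl1 hl2 hl3 using hch
    refine ⟨(∑ k ∈ S, lam k) * 2 ^ t / 2 ^ 30, ?_, ?_⟩
    · rw [abs_div, abs_mul, abs_of_pos (show (0 : ℝ) < 2 ^ 30 by positivity), abs_of_pos (show (0 : ℝ) < 2 ^ t by positivity)]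
      have := rBPH_sum S (2 ^ t * z / 2 ^ 30) lam (8 / 5) (by norm_num) (fun k _ => hl1 k) (fun k _ hk => hl2 k (by
        have : (0 : ℝ) < 1 / 2 ^ 20 := by positivity
        linarith))
      gcongr
      linarith
    · intro h hh
      set h' : ℝ := 2 ^ t * h / 2 ^ 30 with hh'
      have hh1 : |h'| ≤ 2 / 2 ^ 30 := by
        rw [hh', abs_div, abs_of_pos (show (0 : ℝ) < 2 ^ 30 by positivity)]
        gcongr
      have hh2 : |h'| ≤ 1 / 100 := hh1.trans (by norm_num)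
      have hh3 : |h'| ≤ 1 / 2 ^ 20 := hh1.trans (by norm_num)
      have ev : ∀ k : ℤ, 2 ^ t * (z + h) / 2 ^ 30 - (k : ℝ) = 2 ^ t * z / 2 ^ 30 - (k : ℝ) + h' := by
        intro k; rw [hh']; ring
      have ez : ∀ k : ℤ, 2 + 1 / 2 ^ 20 ≤ |2 ^ t * z / 2 ^ 30 - (k : ℝ) - 1 / 2| →
          rbp (2 ^ t * z / 2 ^ 30 - (k : ℝ) + h') = 0 ∧ rbp (2 ^ t * z / 2 ^ 30 - (k : ℝ)) = 0 ∧ lam k = 0 := by
        intro k hk
        have hp : (0 : ℝ) < 1 / 2 ^ 20 := by positivity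
        refine ⟨(hBMP _).2.2.1 ?_, (hBMP _).2.2.1 (by linarith), hl2 k (by linarith)⟩
        have e : 2 ^ t * z / 2 ^ 30 - (k : ℝ) + h' - 1 / 2 = (2 ^ t * z / 2 ^ 30 - (k : ℝ) - 1 / 2) - (-h') := by ring
        rw [e]
        have := abs_sub_abs_le_abs_sub (2 ^ t * z / 2 ^ 30 - (k : ℝ) - 1 / 2) (-h')
        rw [abs_neg] at this
        linarith
      constructor
      · have e1 : rph A t (z + h) - rph A t z - (∑ k ∈ S, lam k) * 2 ^ t / 2 ^ 30 * h =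
            ∑ k ∈ S, (rbp (2 ^ t * z / 2 ^ 30 - (k : ℝ) + h') - rbp (2 ^ t * z / 2 ^ 30 - (k : ℝ)) - lam k * h') := by
          rw [hph, hph, Finset.sum_sub_distrib, Finset.sum_sub_distrib, ← Finset.sum_mul]
          simp only [ev]
          rw [hh']; ring
        rw [e1]
        have := rBPH_sum S (2 ^ t * z / 2 ^ 30) (fun k => rbp (2 ^ t * z / 2 ^ 30 - (k : ℝ) + h') - rbp (2 ^ t * z / 2 ^ 30 - (k : ℝ)) - lam k * h')
          (4 * h' ^ 2) (by positivity) (fun k _ => (hl3 k h' hh2).1) (fun k _ hk => by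
            obtain ⟨a1, a2, a3⟩ := ez k hk
            simp only [a1, a2, a3]; ring)
        linarith
      · have e1 : rph A t (z + h) - rph A t z =
            ∑ k ∈ S, (rbp (2 ^ t * z / 2 ^ 30 - (k : ℝ) + h') - rbp (2 ^ t * z / 2 ^ 30 - (k : ℝ))) := by
          rw [hph, hph, Finset.sum_sub_distrib]
          simp only [ev]
        rw [e1]
        have := rBPH_sum S (2 ^ t * z / 2 ^ 30) (fun k => rbp (2 ^ t * z / 2 ^ 30 - (k : ℝ) + h') - rbp (2 ^ t * z / 2 ^ 30 - (k : ℝ)))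
          (2 * |h'|) (by positivity) (fun k _ => (hl3 k h' hh2).2) (fun k _ hk => by
            obtain ⟨a1, a2, a3⟩ := ez k hk
            simp only [a1, a2]; ring)
        have e2 : |h'| = |2 ^ t * h| / 2 ^ 30 := by
          rw [hh', abs_div, abs_of_pos (show (0 : ℝ) < 2 ^ 30 by positivity)]
        rw [e2] at this
        calc _ ≤ 5 * (2 * (|2 ^ t * h| / 2 ^ 30)) := this
          _ = 10 * |2 ^ t * h| / 2 ^ 30 := by ring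

end Pool.Agent.helper90.DH
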